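import Mathlib

/-! Killed Gaussian random walk on a symmetric interval: log-concavity of survival. -/

namespace Pool.Agent.H.MP_1e851b_pr

open MeasureTheory ProbabilityTheory Set
open scoped ENNReal NNReal

lemma rearr {P Q A B : ℝ≥0∞} (h1 : Q ≤ P) (h2 : B ≤ A) : Q * A + P * B ≤ P * A + Q * B := by
  obtain ⟨e, rfl⟩ := le_iff_exists_add.mp h1
  obtain ⟨f, rfl⟩ := le_iff_exists_add.mp h2
  calc Q * (B + f) + (Q + e) * B ≤ Q * (B + f) + (Q + e) * B + e * f := le_self_add
    _ = _ := by ring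

lemma four {f1 g1 f2 g2 : ℝ → ℝ≥0∞} (h1 : Measurable f1) (h2 : Measurable g1)
    (h3 : Measurable f2) (h4 : Measurable g2)
    (h : ∀ x y, f1 x * g1 y + f1 y * g1 x ≤ f2 x * g2 y + f2 y * g2 x) :
    (∫⁻ x, f1 x) * (∫⁻ x, g1 x) ≤ (∫⁻ x, f2 x) * (∫⁻ x, g2 x) := by
  have key : ∀ f g : ℝ → ℝ≥0∞, Measurable f → Measurable g →
      ∫⁻ z : ℝ × ℝ, (f z.1 * g z.2 + f z.2 * g z.1) ∂(volume.prod volume) =
        2 * ((∫⁻ x, f x) * (∫⁻ x, g x)) := by
    intro f g hf hg
    rw [lintegral_add_left (by fun_prop), lintegral_prod_mul hf.aemeasurable hg.aemeasurable]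
    have : ∫⁻ z : ℝ × ℝ, f z.2 * g z.1 ∂(volume.prod volume) = (∫⁻ x, g x) * ∫⁻ x, f x := by
      rw [← lintegral_prod_mul hg.aemeasurable hf.aemeasurable]
      simp_rw [mul_comm]
    rw [this, mul_comm (∫⁻ x, g x), two_mul]
  have := lintegral_mono (μ := (volume : Measure ℝ).prod volume)
    (fun z : ℝ × ℝ => h z.1 z.2)
  rw [key _ _ h1 h2, key _ _ h3 h4] at this
  exact (ENNReal.mul_le_mul_iff_right two_ne_zero ENNReal.ofNat_ne_top).mp this

/-- One Gaussian step. -/
noncomputable def T (v : ℝ≥0) (f : ℝ → ℝ≥0∞) (x : ℝ) : ℝ≥0∞ :=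
  ∫⁻ y, f (x + y) ∂gaussianReal 0 v

lemma T_meas (v : ℝ≥0) {f : ℝ → ℝ≥0∞} (hf : Measurable f) : Measurable (T v f) := by
  unfold T
  exact Measurable.lintegral_prod_right' (f := fun z : ℝ × ℝ => f (z.1 + z.2)) (by fun_prop)

lemma T_eq {v : ℝ≥0} (hv : v ≠ 0) {f : ℝ → ℝ≥0∞} (hf : Measurable f) (x : ℝ) :
    T v f x = ∫⁻ y, gaussianPDF x v y * f y := by
  have : T v f x = ∫⁻ y, f y ∂gaussianReal x v := by
    unfold T
    have h := gaussianReal_map_const_add (μ := 0) (v := v) x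
    rw [zero_add] at h
    rw [← h, lintegral_map hf (by fun_prop)]
  rw [this, gaussianReal_of_var_ne_zero _ hv,
    lintegral_withDensity_eq_lintegral_mul _ (measurable_gaussianPDF _ _) hf]
  rfl

lemma pdf_neg (v : ℝ≥0) (x y : ℝ) : gaussianPDF x v (-y) = gaussianPDF (-x) v y := by
  unfold gaussianPDF gaussianPDFReal
  congr 3
  ring

lemma T_neg {v : ℝ≥0} (hv : v ≠ 0) {f : ℝ → ℝ≥0∞} (hf : Measurable f) (he : ∀ y, f (-y) = f y)
    (x : ℝ) : T v f (-x) = T v f x := by
  rw [T_eq hv hf, T_eq hv hf, ← lintegral_neg_eq_self (fun y => gaussianPDF x v y * f y)]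
  simp_rw [pdf_neg, he]

/-- The folded kernel. -/
noncomputable def K (v : ℝ≥0) (x y : ℝ) : ℝ≥0∞ := gaussianPDF x v y + gaussianPDF (-x) v y

lemma K_meas (v : ℝ≥0) (x : ℝ) : Measurable (K v x) :=
  (measurable_gaussianPDF _ _).add (measurable_gaussianPDF _ _)

lemma T_two {v : ℝ≥0} (hv : v ≠ 0) {f : ℝ → ℝ≥0∞} (hf : Measurable f) (he : ∀ y, f (-y) = f y)
    (x : ℝ) : 2 * T v f x = ∫⁻ y, K v x y * f y := by
  have h := T_neg hv hf he x
  rw [two_mul]
  nth_rewrite 2 [← h]
  rw [T_eq hv hf, T_eq hv hf, ← lintegral_add_left ((measurable_gaussianPDF _ _).fun_mul hf)]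
  simp_rw [K, add_mul]

lemma K_eq {v : ℝ≥0} (hv : v ≠ 0) (x y : ℝ) : K v x y = ENNReal.ofReal
    (2 * (√(2 * Real.pi * v))⁻¹ * Real.exp (-x ^ 2 / (2 * v)) * Real.exp (-y ^ 2 / (2 * v)) *
      Real.cosh (x * y / v)) := by
  have hv' : (v : ℝ) ≠ 0 := by exact_mod_cast hv
  unfold K gaussianPDF
  rw [← ENNReal.ofReal_add (gaussianPDFReal_nonneg _ _ _) (gaussianPDFReal_nonneg _ _ _)]
  congr 1
  unfold gaussianPDFReal
  rw [Real.cosh_eq]
  have e1 : Real.exp (-(y - x) ^ 2 / (2 * v)) = Real.exp (-x ^ 2 / (2 * v)) *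
      Real.exp (-y ^ 2 / (2 * v)) * Real.exp (x * y / v) := by
    rw [← Real.exp_add, ← Real.exp_add]; congr 1; field_simp; ring
  have e2 : Real.exp (-(y - -x) ^ 2 / (2 * v)) = Real.exp (-x ^ 2 / (2 * v)) *
      Real.exp (-y ^ 2 / (2 * v)) * Real.exp (-(x * y / v)) := by
    rw [← Real.exp_add, ← Real.exp_add]; congr 1; field_simp; ring
  rw [e1, e2]; ring

lemma cosh_tp {x y a b : ℝ} (h1 : |x| ≤ |y|) (h2 : |a| ≤ |b|) :
    Real.cosh (y * a) * Real.cosh (x * b) ≤ Real.cosh (x * a) * Real.cosh (y * b) := by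
  have hm : ∀ s t : ℝ, Real.cosh s * Real.cosh t = (Real.cosh (s + t) + Real.cosh (s - t)) / 2 := by
    intro s t; rw [Real.cosh_add, Real.cosh_sub]; ring
  rw [← Real.cosh_abs (y * a), ← Real.cosh_abs (x * b), ← Real.cosh_abs (x * a),
    ← Real.cosh_abs (y * b), abs_mul, abs_mul, abs_mul, abs_mul, hm, hm]
  have hx := abs_nonneg x
  have ha := abs_nonneg a
  generalize |x| = X at *
  generalize |y| = Y at *
  generalize |a| = A at *
  generalize |b| = B at *
  have e1 : Real.cosh (Y * A + X * B) ≤ Real.cosh (X * A + Y * B) := by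
    rw [Real.cosh_le_cosh, abs_of_nonneg (by nlinarith), abs_of_nonneg (by nlinarith)]
    nlinarith [mul_nonneg (sub_nonneg.2 h1) (sub_nonneg.2 h2)]
  have e2 : Real.cosh (Y * A - X * B) ≤ Real.cosh (X * A - Y * B) := by
    rw [Real.cosh_le_cosh, abs_sub_comm (X * A), abs_of_nonneg (a := Y * B - X * A) (by nlinarith),
      abs_le]
    constructor <;> nlinarith
  linarith

lemma K_tp {v : ℝ≥0} (hv : v ≠ 0) {x y a b : ℝ} (h1 : |x| ≤ |y|) (h2 : |a| ≤ |b|) :
    K v y a * K v x b ≤ K v x a * K v y b := by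
  have hv' : (0 : ℝ) < v := by positivity
  simp only [K_eq hv]
  rw [← ENNReal.ofReal_mul (by positivity), ← ENNReal.ofReal_mul (by positivity)]
  apply ENNReal.ofReal_le_ofReal
  have := cosh_tp (x := x) (y := y) (a := a / v) (b := b / v) h1 (by
    rw [abs_div, abs_div]; gcongr)
  simp only [← mul_div_assoc] at this
  have hp : 0 ≤ (2 * (√(2 * Real.pi * v))⁻¹) ^ 2 * Real.exp (-x ^ 2 / (2 * v)) *
    Real.exp (-y ^ 2 / (2 * v)) * Real.exp (-a ^ 2 / (2 * v)) * Real.exp (-b ^ 2 / (2 * v)) := by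
    positivity
  have := mul_le_mul_of_nonneg_left this hp
  refine le_of_eq_of_le ?_ (this.trans_eq ?_) <;> ring

/-- `a / b` is nonincreasing in `|x|`. -/
def R (a b : ℝ → ℝ≥0∞) : Prop := ∀ x y, |x| ≤ |y| → a y * b x ≤ a x * b y

lemma R_T {v : ℝ≥0} (hv : v ≠ 0) {a b : ℝ → ℝ≥0∞} (ha : Measurable a) (hb : Measurable b)
    (ea : ∀ y, a (-y) = a y) (eb : ∀ y, b (-y) = b y) (h : R a b) : R (T v a) (T v b) := by
  intro x y hxy
  have h4 : (2 * T v a y) * (2 * T v b x) ≤ (2 * T v a x) * (2 * T v b y) := by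
    rw [T_two hv ha ea, T_two hv ha ea, T_two hv hb eb, T_two hv hb eb]
    refine four ((K_meas _ _).mul ha) ((K_meas _ _).mul hb) ((K_meas _ _).mul ha)
      ((K_meas _ _).mul hb) (fun s t => ?_)
    rcases le_total |s| |t| with hst | hst
    · have := rearr (K_tp hv hxy hst) (h s t hst)
      convert this using 1 <;> ring
    · have := rearr (K_tp hv hxy hst) (h t s hst)
      convert this using 1 <;> ring
  have e : ∀ p q : ℝ≥0∞, (2 * p) * (2 * q) = 4 * (p * q) := by intro p q; ring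
  rw [e, e] at h4
  exact (ENNReal.mul_le_mul_iff_right (by norm_num) ENNReal.ofNat_ne_top).mp h4

/-- Indicator of `[-r, r]`. -/
noncomputable def chi (r y : ℝ) : ℝ≥0∞ := if |y| ≤ r then 1 else 0

lemma chi_meas (r : ℝ) : Measurable (chi r) :=
  Measurable.ite (measurableSet_le (by fun_prop) measurable_const) measurable_const
    measurable_const

/-- Survival function of the killed walk. -/
noncomputable def U (v : ℝ≥0) (r : ℝ) : ℕ → ℝ → ℝ≥0∞
  | 0 => fun _ => 1
  | m + 1 => T v (fun y => chi r y * U v r m y)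

lemma U_meas (v : ℝ≥0) (r : ℝ) : ∀ m, Measurable (U v r m)
  | 0 => measurable_const
  | m + 1 => T_meas v ((chi_meas r).mul (U_meas v r m))

lemma H_meas (v : ℝ≥0) (r : ℝ) (m : ℕ) : Measurable fun y => chi r y * U v r m y :=
  (chi_meas r).mul (U_meas v r m)

lemma H_meas' (v : ℝ≥0) (r : ℝ) (m : ℕ) (x : ℝ) :
    Measurable fun y => chi r (x + y) * U v r m (x + y) :=
  (H_meas v r m).comp (measurable_const_add x)

lemma U_neg {v : ℝ≥0} (hv : v ≠ 0) (r : ℝ) : ∀ m y, U v r m (-y) = U v r m y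
  | 0, _ => rfl
  | m + 1, y => T_neg hv (H_meas v r m)
      (fun z => by simp only [chi, abs_neg, U_neg hv r m z]) y

lemma chi_le (r y : ℝ) : chi r y ≤ 1 := by unfold chi; split_ifs <;> simp

lemma U_le (v : ℝ≥0) (r : ℝ) : ∀ m y, U v r m y ≤ 1
  | 0, _ => le_rfl
  | m + 1, y => by
    unfold U T
    calc _ ≤ ∫⁻ _, 1 ∂gaussianReal 0 v :=
          lintegral_mono fun z => mul_le_one' (chi_le _ _) (U_le v r m _)
      _ = 1 := by simp

lemma U_anti (v : ℝ≥0) (r : ℝ) : ∀ m y, U v r (m + 1) y ≤ U v r m y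
  | 0, y => U_le v r 1 y
  | m + 1, _ => lintegral_mono fun _ => mul_le_mul_right (U_anti v r m _) _

lemma U_pos {v : ℝ≥0} (hv : v ≠ 0) {r : ℝ} (hr : 0 < r) : ∀ m y, U v r m y ≠ 0
  | 0, _ => one_ne_zero
  | m + 1, y => by
    intro h
    unfold U T at h
    rw [lintegral_eq_zero_iff (H_meas' v r m y)] at h
    have h2 : ∀ᵐ z ∂(volume : Measure ℝ), z ∉ Icc (-r - y) (r - y) := by
      filter_upwards [gaussianReal_absolutelyContinuous' 0 hv h] with z hz hz'
      have : |y + z| ≤ r := abs_le.2 ⟨by linarith [hz'.1], by linarith [hz'.2]⟩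
      simp [chi, this, U_pos hv hr m] at hz
    rw [← measure_eq_zero_iff_ae_notMem, Real.volume_Icc, ENNReal.ofReal_eq_zero] at h2
    linarith

lemma R_U {v : ℝ≥0} (hv : v ≠ 0) (r : ℝ) : ∀ m, R (U v r (m + 1)) (U v r m)
  | 0 => by
    have h1 : U v r 0 = T v (fun _ => 1) := by funext y; simp [U, T]
    rw [h1]
    refine R_T hv (H_meas v r 0) measurable_const
      (fun z => by simp only [chi, abs_neg, U]) (fun _ => rfl) (fun x y hxy => ?_)
    simp only [U, mul_one, chi]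
    split_ifs with h2 h3
    · exact le_rfl
    · exact absurd (hxy.trans h2) h3
    all_goals simp
  | m + 1 => by
    refine R_T hv (H_meas v r _) (H_meas v r _)
      (fun z => by simp only [chi, abs_neg, U_neg hv]) (fun z => by simp only [chi, abs_neg, U_neg hv])
      (fun x y hxy => ?_)
    have := mul_le_mul_right (R_U hv r m x y hxy) (chi r x * chi r y)
    convert this using 1 <;> ring

lemma U_logc {v : ℝ≥0} (hv : v ≠ 0) (r : ℝ) (m : ℕ) :
    U v r (m + 2) 0 * U v r m 0 ≤ U v r (m + 1) 0 * U v r (m + 1) 0 := by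
  have e1 : U v r (m + 2) 0 = ∫⁻ y, chi r (0 + y) * U v r (m + 1) (0 + y) ∂gaussianReal 0 v := rfl
  have e2 : U v r (m + 1) 0 = ∫⁻ y, chi r (0 + y) * U v r m (0 + y) ∂gaussianReal 0 v := rfl
  simp only [zero_add] at e1 e2
  rw [e1, ← lintegral_mul_const _ (H_meas v r _)]
  nth_rewrite 2 [e2]
  rw [← lintegral_const_mul _ (H_meas v r _)]
  refine lintegral_mono fun y => ?_
  have := mul_le_mul_right (R_U hv r m 0 y (by simp)) (chi r y)
  convert this using 1 <;> ring

lemma support_line (f : ℕ → ℝ) (h : ∀ m, f (m + 2) - f (m + 1) ≤ f (m + 1) - f m) (M m : ℕ) :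
    f m ≤ f M + ((m : ℝ) - M) * (f (M + 1) - f M) := by
  have ha : Antitone fun m => f (m + 1) - f m := antitone_nat_of_succ_le h
  rcases le_total M m with hm | hm
  · induction m, hm using Nat.le_induction with
    | base => simp
    | succ n hn ih =>
      have := ha hn
      simp only at this
      push_cast
      nlinarith
  · induction hm using Nat.decreasingInduction with
    | self => simp
    | of_succ n hn ih =>
      have := ha hn.le
      simp only at this
      push_cast at ih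
      nlinarith

lemma U_jensen {v : ℝ≥0} (hv : v ≠ 0) {r : ℝ} (hr : 0 < r) {ι : Type} [Fintype ι] (m : ι → ℕ)
    (M : ℕ) (hM : Fintype.card ι * M ≤ ∑ k, m k) :
    ∏ k, U v r (m k) 0 ≤ U v r M 0 ^ Fintype.card ι := by
  have hfin : ∀ n, U v r n 0 ≠ ∞ := fun n => ne_top_of_le_ne_top ENNReal.one_ne_top (U_le v r n 0)
  have hpos : ∀ n, 0 < (U v r n 0).toReal := fun n => ENNReal.toReal_pos (U_pos hv hr n 0) (hfin n)
  set f : ℕ → ℝ := fun n => Real.log (U v r n 0).toReal with hf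
  have h1 : ∀ n, f (n + 2) - f (n + 1) ≤ f (n + 1) - f n := by
    intro n
    have := ENNReal.toReal_mono (ENNReal.mul_ne_top (hfin _) (hfin _)) (U_logc hv r n)
    rw [ENNReal.toReal_mul, ENNReal.toReal_mul] at this
    have := Real.log_le_log (mul_pos (hpos _) (hpos _)) this
    rw [Real.log_mul (hpos _).ne' (hpos _).ne', Real.log_mul (hpos _).ne' (hpos _).ne'] at this
    simp only [hf]; linarith
  have h2 : f (M + 1) - f M ≤ 0 := by
    have := Real.log_le_log (hpos _) (ENNReal.toReal_mono (hfin _) (U_anti v r M 0))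
    simp only [hf]; linarith
  have h3 : ∑ k, f (m k) ≤ Fintype.card ι * f M := by
    have h4 := Finset.sum_le_sum (s := Finset.univ) fun k _ => support_line f h1 M (m k)
    rw [Finset.sum_add_distrib, ← Finset.sum_mul, Finset.sum_sub_distrib] at h4
    simp only [Finset.sum_const, Finset.card_univ, nsmul_eq_mul] at h4
    have h5 : (Fintype.card ι : ℝ) * M ≤ ∑ k, (m k : ℝ) := by exact_mod_cast hM
    nlinarith
  rw [← ENNReal.toReal_le_toReal (ENNReal.prod_ne_top fun k _ => hfin _)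
    (ENNReal.pow_ne_top (hfin _)), ENNReal.toReal_prod, ENNReal.toReal_pow,
    ← Real.log_le_log_iff (Finset.prod_pos fun k _ => hpos _) (pow_pos (hpos _) _),
    Real.log_prod (fun k _ => (hpos _).ne'), Real.log_pow]
  exact h3

lemma T_cosh (v : ℝ≥0) (θ x : ℝ) : ∫⁻ y, ENNReal.ofReal (Real.cosh (θ * (x + y))) ∂gaussianReal 0 v
    = ENNReal.ofReal (Real.cosh (θ * x) * Real.exp (v * θ ^ 2 / 2)) := by
  have e : ∀ y, Real.cosh (θ * (x + y)) = Real.exp (θ * x) / 2 * Real.exp (θ * y) +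
      Real.exp (-(θ * x)) / 2 * Real.exp (-θ * y) := by
    intro y
    rw [Real.cosh_eq, mul_add, Real.exp_add, neg_add, Real.exp_add, neg_mul]; ring
  have i1 := (integrable_exp_mul_gaussianReal (μ := 0) (v := v) θ).const_mul (Real.exp (θ * x) / 2)
  have i2 := (integrable_exp_mul_gaussianReal (μ := 0) (v := v) (-θ)).const_mul
    (Real.exp (-(θ * x)) / 2)
  have m1 := congrFun (mgf_fun_id_gaussianReal (μ := 0) (v := v)) θ
  have m2 := congrFun (mgf_fun_id_gaussianReal (μ := 0) (v := v)) (-θ)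
  unfold mgf at m1 m2
  rw [← ofReal_integral_eq_lintegral_ofReal (by simp_rw [e]; exact i1.add i2)
    (Filter.Eventually.of_forall fun y => (Real.cosh_pos _).le)]
  congr 1
  simp_rw [e]
  rw [integral_add i1 i2, integral_const_mul, integral_const_mul, m1, m2, Real.cosh_eq]
  simp only [zero_mul, zero_add, neg_sq]
  ring

lemma U_low (v : ℝ≥0) {r θ : ℝ} (hθ : 0 ≤ θ) (hr : 0 ≤ r) : ∀ (m : ℕ) (x : ℝ),
    1 ≤ U v r m x + ENNReal.ofReal
      (Real.cosh (θ * x) * Real.exp (m * v * θ ^ 2 / 2) / Real.cosh (θ * r))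
  | 0, _ => le_self_add
  | m + 1, x => by
    have hc := Real.cosh_pos (θ * r)
    set c := Real.exp (m * v * θ ^ 2 / 2) / Real.cosh (θ * r) with hcd
    have hc0 : 0 ≤ c := by positivity
    have h1 : ∀ y, 1 ≤ chi r y * U v r m y + ENNReal.ofReal c * ENNReal.ofReal (Real.cosh (θ * y)) := by
      intro y
      rw [← ENNReal.ofReal_mul hc0]
      unfold chi
      split_ifs with hy
      · have := U_low v hθ hr m y
        rw [one_mul]
        convert this using 3
        rw [hcd]; ring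
      · rw [zero_mul, zero_add, ENNReal.one_le_ofReal, hcd, div_mul_eq_mul_div, le_div_iff₀ hc]
        have h2 : Real.cosh (θ * r) ≤ Real.cosh (θ * y) := by
          rw [Real.cosh_le_cosh, abs_mul, abs_mul, abs_of_nonneg hr]
          exact mul_le_mul_of_nonneg_left (not_le.1 hy).le (abs_nonneg _)
        have h3 : 1 ≤ Real.exp (m * v * θ ^ 2 / 2) := Real.one_le_exp (by positivity)
        nlinarith
    have h2 := lintegral_mono (μ := gaussianReal 0 v) fun y => h1 (x + y)
    rw [lintegral_add_left (H_meas' v r m x),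
      lintegral_const_mul _ (by fun_prop), T_cosh, ← ENNReal.ofReal_mul hc0] at h2
    simp only [lintegral_const, measure_univ, mul_one] at h2
    refine h2.trans (add_le_add le_rfl (le_of_eq ?_))
    congr 1
    rw [hcd]
    have : Real.exp (((m + 1 : ℕ) : ℝ) * v * θ ^ 2 / 2) = Real.exp (m * v * θ ^ 2 / 2) *
        Real.exp (v * θ ^ 2 / 2) := by
      rw [← Real.exp_add]; congr 1; push_cast; ring
    rw [this]; ring

lemma U_decay {r : ℝ} (hr : r ≤ 1) : ∀ (m : ℕ) (x : ℝ), U 1 r m x ≤ ENNReal.ofReal (7 / 8) ^ m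
  | 0, _ => by simp [U]
  | m + 1, x => by
    have h1 : U 1 r (m + 1) x = ∫⁻ y, gaussianPDF x 1 y * (chi r y * U 1 r m y) :=
      T_eq one_ne_zero (H_meas 1 r m) x
    have h2 : ∀ y, gaussianPDF x 1 y * (chi r y * U 1 r m y) ≤ (Icc (-1 : ℝ) 1).indicator
        (fun _ => ENNReal.ofReal (7 / 16) * ENNReal.ofReal (7 / 8) ^ m) y := by
      intro y
      unfold chi
      split_ifs with hy
      · rw [indicator_of_mem (show y ∈ Icc (-1 : ℝ) 1 from abs_le.1 (hy.trans hr)), one_mul]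
        refine mul_le_mul' (ENNReal.ofReal_le_ofReal ?_) (U_decay hr m y)
        unfold gaussianPDFReal
        have e1 : Real.exp (-(y - x) ^ 2 / (2 * ((1 : ℝ≥0) : ℝ))) ≤ 1 :=
          Real.exp_le_one_iff.2 (div_nonpos_of_nonpos_of_nonneg (by nlinarith [sq_nonneg (y - x)])
            (by positivity))
        have e2 : 16 / 7 ≤ √(2 * Real.pi * ((1 : ℝ≥0) : ℝ)) := by
          apply Real.le_sqrt_of_sq_le
          have := Real.pi_gt_three
          simp only [NNReal.coe_one]; linarith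
        have e3 : (√(2 * Real.pi * ((1 : ℝ≥0) : ℝ)))⁻¹ ≤ 7 / 16 := by
          rw [inv_le_comm₀ (by linarith) (by norm_num)]; linarith
        calc _ ≤ (7 / 16 : ℝ) * 1 := by gcongr
          _ = _ := by norm_num
      · simp
    rw [h1]
    refine (lintegral_mono h2).trans ?_
    rw [lintegral_indicator_const measurableSet_Icc, Real.volume_Icc, pow_succ, mul_comm, ← mul_assoc,
      ← ENNReal.ofReal_mul (by norm_num), mul_comm]
    norm_num

end Pool.Agent.H.MP_1e851b_pr
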