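import Pool.Agent.H.MP_1e851b_pr.A

/-! Brownian motion staying in an interval. -/

namespace Pool.Agent.H.MP_1e851b_pr

open MeasureTheory ProbabilityTheory Set Filter Topology
open scoped ENNReal NNReal

variable {Ω : Type*} {mΩ : MeasurableSpace Ω} {P : Measure Ω}

/-- Skeleton event. -/
def E (B : ℝ≥0 → Ω → ℝ) (v : ℝ≥0) (r x : ℝ) (m : ℕ) : Set Ω :=
  {ω | ∀ j < m, |x + B (((j + 1 : ℕ) : ℝ≥0) * v) ω| ≤ r}

lemma markov (v : ℝ≥0) (r : ℝ) : ∀ (m : ℕ) (B : ℝ≥0 → Ω → ℝ), IsPreBrownianReal B P →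
    ∀ x, P (E B v r x m) = U v r m x
  | 0, B, hB, x => by
    have := hB.isGaussianProcess.isProbabilityMeasure
    simp [E, U]
  | m + 1, B, hB, x => by
    have := hB.isGaussianProcess.isProbabilityMeasure
    have hB' := hB.shift v
    have ih := markov v r m _ hB'
    set Y : Ω → Fin m → ℝ := fun ω j => B (v + ((j + 1 : ℕ) : ℝ≥0) * v) ω - B v ω with hY
    have mY : AEMeasurable Y P := aemeasurable_pi_lambda _ fun j => hB'.aemeasurable _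
    have hind : IndepFun (B v) Y P :=
      ((hB.indepFun_shift v).comp (φ := fun (w : ℝ≥0 → ℝ) (j : Fin m) => w (((j + 1 : ℕ) : ℝ≥0) * v))
        (ψ := fun w : Set.Iic v → ℝ => w ⟨v, Set.mem_Iic.2 le_rfl⟩) (by fun_prop) (by fun_prop)).symm
    set S : Set (ℝ × (Fin m → ℝ)) := {z | |x + z.1| ≤ r ∧ ∀ j, |x + z.1 + z.2 j| ≤ r} with hS
    have mS : MeasurableSet S := by
      simp only [hS, ofPred_and, ofPred_forall]
      exact (measurableSet_le (by fun_prop) measurable_const).inter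
        (MeasurableSet.iInter fun j => measurableSet_le (by fun_prop) measurable_const)
    have hE : E B v r x (m + 1) = (fun ω => (B v ω, Y ω)) ⁻¹' S := by
      ext ω
      have e : ∀ j : ℕ, ((j + 1 + 1 : ℕ) : ℝ≥0) * v = v + ((j + 1 : ℕ) : ℝ≥0) * v := by
        intro j; push_cast; ring
      simp only [E, hS, hY, mem_setOf_eq, mem_preimage, Nat.forall_lt_succ_left, e,
        add_add_sub_cancel]
      refine and_congr (by simp) ⟨fun h j => h j j.2, fun h j hj => h ⟨j, hj⟩⟩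
    rw [hE, ← Measure.map_apply_of_aemeasurable ((hB.aemeasurable v).prodMk mY) mS,
      (indepFun_iff_map_prod_eq_prod_map_map (hB.aemeasurable v) mY).1 hind,
      Measure.prod_apply mS, (hB.hasLaw_eval v).map_eq]
    refine lintegral_congr fun y => ?_
    beta_reduce
    rw [Measure.map_apply_of_aemeasurable mY (measurable_prodMk_left mS), ← ih]
    unfold chi
    split_ifs with hy
    · rw [one_mul]
      congr 1
      ext ω
      simp only [E, hS, hY, mem_setOf_eq, mem_preimage, hy, true_and]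
      exact ⟨fun h j hj => h ⟨j, hj⟩, fun h j => h j j.2⟩
    · rw [zero_mul]
      convert measure_empty (μ := P)
      ext ω
      simp [hS, hy]

/-- Staying in the closed interval. -/
def Cl (B : ℝ≥0 → Ω → ℝ) (r : ℝ) (t : ℝ≥0) : Set Ω := {ω | ∀ s ≤ t, |B s ω| ≤ r}

/-- Staying in the open interval. -/
def Op (B : ℝ≥0 → Ω → ℝ) (r : ℝ) (t : ℝ≥0) : Set Ω := {ω | ∀ s ≤ t, |B s ω| < r}

lemma cl_sub (B : ℝ≥0 → Ω → ℝ) (r : ℝ) {t v : ℝ≥0} {m : ℕ} (h : m * v ≤ t) :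
    Cl B r t ⊆ E B v r 0 m := by
  intro ω hω j hj
  rw [zero_add]
  refine hω _ (le_trans ?_ h)
  gcongr
  omega

lemma cl_le {B : ℝ≥0 → Ω → ℝ} (hB : IsPreBrownianReal B P) (r : ℝ) {t v : ℝ≥0} {m : ℕ}
    (h : m * v ≤ t) : P (Cl B r t) ≤ U v r m 0 := by
  rw [← markov v r m B hB]
  exact measure_mono (cl_sub B r h)

lemma floor_mul_le (t : ℝ≥0) (n : ℕ) : (⌊t * 2 ^ n⌋₊ : ℝ≥0) * (2 ^ n)⁻¹ ≤ t := by
  rw [← div_eq_mul_inv, div_le_iff₀ (by positivity)]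
  exact Nat.floor_le zero_le

lemma floor_mul_le' (t : ℝ≥0) (n : ℕ) : ((⌊t * 2 ^ n⌋₊ - 1 : ℕ) : ℝ≥0) * (2 ^ n)⁻¹ ≤ t := by
  refine le_trans ?_ (floor_mul_le t n)
  gcongr
  omega

lemma floor_tendsto (s : ℝ≥0) :
    Tendsto (fun n : ℕ => ((⌊s * 2 ^ n⌋₊ - 1 : ℕ) : ℝ≥0) * (2 ^ n)⁻¹) atTop (𝓝 s) := by
  rw [← NNReal.tendsto_coe]
  have h0 : Tendsto (fun n : ℕ => (s : ℝ) - 2 * (2⁻¹ : ℝ) ^ n) atTop (𝓝 (s - 2 * 0)) :=
    tendsto_const_nhds.sub ((tendsto_pow_atTop_nhds_zero_of_lt_one (by norm_num)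
      (by norm_num)).const_mul 2)
  rw [mul_zero, sub_zero] at h0
  refine tendsto_of_tendsto_of_tendsto_of_le_of_le h0 tendsto_const_nhds (fun n => ?_)
    (fun n => by exact_mod_cast floor_mul_le' s n)
  have h1 : s * 2 ^ n < (⌊s * 2 ^ n⌋₊ : ℝ≥0) + 1 := Nat.lt_floor_add_one _
  have h2 : (⌊s * 2 ^ n⌋₊ : ℝ) ≤ ((⌊s * 2 ^ n⌋₊ - 1 : ℕ) : ℝ) + 1 := by
    exact_mod_cast (by omega : ⌊s * 2 ^ n⌋₊ ≤ ⌊s * 2 ^ n⌋₊ - 1 + 1)
  have h3 : (s : ℝ) * 2 ^ n < (⌊s * 2 ^ n⌋₊ : ℝ) + 1 := by exact_mod_cast h1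
  simp only [NNReal.coe_mul, NNReal.coe_inv, NNReal.coe_pow, NNReal.coe_natCast, NNReal.coe_ofNat,
    inv_pow]
  have h4 : (0 : ℝ) < 2 ^ n := by positivity
  rw [← div_eq_mul_inv, ← div_eq_mul_inv, le_div_iff₀ h4, sub_mul, div_mul_cancel₀ _ h4.ne']
  linarith

lemma cl_lim {B : ℝ≥0 → Ω → ℝ} (hB : IsBrownianReal B P) {r : ℝ} (hr : 0 ≤ r) (t : ℝ≥0) :
    Tendsto (fun n : ℕ => U (2 ^ n)⁻¹ r (⌊t * 2 ^ n⌋₊ - 1) 0) atTop (𝓝 (P (Cl B r t))) := by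
  have := hB.isGaussianProcess.isProbabilityMeasure
  set A : ℕ → Set Ω := fun n => E B (2 ^ n)⁻¹ r 0 (⌊t * 2 ^ n⌋₊ - 1) with hA
  have h1 : ∀ n, NullMeasurableSet (A n) P := by
    intro n
    simp only [hA, E, ofPred_forall]
    refine NullMeasurableSet.iInter fun j => NullMeasurableSet.iInter fun _ => ?_
    exact nullMeasurableSet_le (measurable_norm.comp_aemeasurable
      ((hB.aemeasurable _).const_add 0)) aemeasurable_const
  have h2 : Antitone A := by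
    refine antitone_nat_of_succ_le fun n ω hω j hj => ?_
    have h3 : 2 * ⌊t * 2 ^ n⌋₊ ≤ ⌊t * 2 ^ (n + 1)⌋₊ := by
      refine Nat.le_floor ?_
      have : (⌊t * 2 ^ n⌋₊ : ℝ≥0) ≤ t * 2 ^ n := Nat.floor_le zero_le
      push_cast
      calc _ ≤ 2 * (t * 2 ^ n) := by gcongr
        _ = _ := by ring
    have := hω (2 * j + 1) (by omega)
    convert this using 4
    push_cast
    field_simp
    ring
  have h3 := tendsto_measure_iInter_atTop h1 h2 ⟨0, measure_ne_top _ _⟩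
  have h4 : P (⋂ n, A n) = P (Cl B r t) := by
    refine measure_congr ?_
    filter_upwards [hB.cont, hB.eval_zero_ae_eq_zero] with ω hc h0
    refine propext ⟨fun h s hs => ?_, fun h => mem_iInter.2 fun n =>
      cl_sub B r (floor_mul_le' t n) h⟩
    refine le_of_tendsto' ((hc.abs.tendsto s).comp (floor_tendsto s)) fun n => ?_
    have h5 : ⌊s * 2 ^ n⌋₊ ≤ ⌊t * 2 ^ n⌋₊ := Nat.floor_le_floor (by gcongr)
    rcases Nat.eq_zero_or_pos (⌊s * 2 ^ n⌋₊ - 1) with h6 | h6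
    · simp only [Function.comp_apply, Pi.abs_apply, h6]
      simp [h0, hr]
    · have := mem_iInter.1 h n (⌊s * 2 ^ n⌋₊ - 2) (by omega)
      rw [zero_add, show ⌊s * 2 ^ n⌋₊ - 2 + 1 = ⌊s * 2 ^ n⌋₊ - 1 by omega] at this
      exact this
  rw [h4] at h3
  refine h3.congr fun n => ?_
  exact markov _ _ _ _ hB.toIsPreBrownianReal _

lemma cl_jensen {ι : Type} [Fintype ι] {W : ι → ℝ≥0 → Ω → ℝ} (hW : ∀ k, IsBrownianReal (W k) P)
    {B : ℝ≥0 → Ω → ℝ} (hB : IsBrownianReal B P) {r : ℝ} (hr : 0 < r) (u : ι → ℝ≥0) (t : ℝ≥0)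
    (h : Fintype.card ι * t ≤ ∑ k, u k) :
    ∏ k, P (Cl (W k) r (u k)) ≤ P (Cl B r t) ^ Fintype.card ι := by
  refine ge_of_tendsto' (ENNReal.Tendsto.pow (cl_lim hB hr.le t)) fun n => ?_
  refine le_trans (Finset.prod_le_prod' fun k _ =>
    cl_le (hW k).toIsPreBrownianReal r (floor_mul_le (u k) n)) (U_jensen (by positivity) hr _ _ ?_)
  rcases Nat.eq_zero_or_pos ⌊t * 2 ^ n⌋₊ with h0 | h0
  · simp [h0]
  have h1 : ∀ k, (u k : ℝ) * 2 ^ n - 1 ≤ ⌊u k * 2 ^ n⌋₊ := by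
    intro k
    have h1 : u k * 2 ^ n < (⌊u k * 2 ^ n⌋₊ : ℝ≥0) + 1 := Nat.lt_floor_add_one _
    have h3 : (u k : ℝ) * 2 ^ n < (⌊u k * 2 ^ n⌋₊ : ℝ) + 1 := by exact_mod_cast h1
    linarith
  have h2 := Finset.sum_le_sum (s := Finset.univ) fun k _ => h1 k
  rw [Finset.sum_sub_distrib, ← Finset.sum_mul] at h2
  simp only [Finset.sum_const, Finset.card_univ, nsmul_eq_mul, mul_one] at h2
  have h3 : (Fintype.card ι : ℝ) * t ≤ ∑ k, (u k : ℝ) := by exact_mod_cast h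
  have h4 : (⌊t * 2 ^ n⌋₊ : ℝ≥0) ≤ t * 2 ^ n := Nat.floor_le zero_le
  have h5 : (⌊t * 2 ^ n⌋₊ : ℝ) ≤ t * 2 ^ n := by exact_mod_cast h4
  have h6 : (Fintype.card ι : ℝ) * ((⌊t * 2 ^ n⌋₊ : ℝ) - 1) ≤ ∑ k, (⌊u k * 2 ^ n⌋₊ : ℝ) := by
    have h7 : (0 : ℝ) ≤ Fintype.card ι := by positivity
    have h8 : (0 : ℝ) < 2 ^ n := by positivity
    nlinarith [mul_le_mul_of_nonneg_left h5 h7, mul_le_mul_of_nonneg_right h3 h8.le]
  have h9 : ((⌊t * 2 ^ n⌋₊ - 1 : ℕ) : ℝ) = (⌊t * 2 ^ n⌋₊ : ℝ) - 1 := by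
    rw [Nat.cast_sub h0, Nat.cast_one]
  rw [← h9] at h6
  exact_mod_cast h6

lemma open_iff {w : ℝ≥0 → ℝ} (hw : Continuous w) {a : ℝ} (ha : 0 < a) (t : ℝ≥0) :
    (∀ s ≤ t, |w s| < a) ↔ ∃ i : ℕ, ∀ s ≤ t, |w s| ≤ a - a / (i + 2) := by
  constructor
  · intro h
    obtain ⟨s, hs, hm⟩ := (isCompact_Icc (a := (0 : ℝ≥0)) (b := t)).exists_isMaxOn
      ⟨0, le_rfl, zero_le⟩ hw.abs.continuousOn
    have h1 : 0 < a - |w s| := sub_pos.2 (h s hs.2)
    obtain ⟨i, hi⟩ := exists_nat_gt (a / (a - |w s|))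
    refine ⟨i, fun s' hs' => (hm ⟨zero_le, hs'⟩).trans ?_⟩
    rw [div_lt_iff₀ h1] at hi
    have : a / (i + 2) ≤ a - |w s| := by
      rw [div_le_iff₀ (by positivity)]; nlinarith
    linarith
  · rintro ⟨i, hi⟩ s hs
    have : 0 < a / (i + 2) := by positivity
    linarith [hi s hs]

lemma op_jensen {ι : Type} [Fintype ι] {W : ι → ℝ≥0 → Ω → ℝ} (hW : ∀ k, IsBrownianReal (W k) P)
    {B : ℝ≥0 → Ω → ℝ} (hB : IsBrownianReal B P) (u : ι → ℝ≥0) (t : ℝ≥0)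
    (h : Fintype.card ι * t ≤ ∑ k, u k) :
    ∏ k, P (Op (W k) 1 (u k)) ≤ P (Op B 1 t) ^ Fintype.card ι := by
  have := hB.isGaussianProcess.isProbabilityMeasure
  have h1 : ∀ k, Tendsto (fun i : ℕ => P (Cl (W k) (1 - 1 / (i + 2)) (u k))) atTop
      (𝓝 (P (Op (W k) 1 (u k)))) := by
    intro k
    have h2 : Monotone fun i : ℕ => Cl (W k) (1 - 1 / (i + 2)) (u k) := by
      intro i j hij ω hω s hs
      refine (hω s hs).trans ?_
      gcongr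
    have h3 := tendsto_measure_iUnion_atTop (μ := P) h2
    have h4 : P (⋃ i : ℕ, Cl (W k) (1 - 1 / (i + 2)) (u k)) = P (Op (W k) 1 (u k)) := by
      refine measure_congr ?_
      filter_upwards [(hW k).cont] with ω hc
      refine propext (Iff.trans mem_iUnion ?_)
      exact (open_iff hc one_pos (u k)).symm
    rwa [h4] at h3
  refine le_of_tendsto' (ENNReal.tendsto_finsetProd_of_ne_top _ (fun k _ => h1 k)
    (fun k _ => measure_ne_top _ _)) fun i => ?_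
  have h5 : (0 : ℝ) < 1 / (i + 2) := by positivity
  have h6 : (1 : ℝ) / (i + 2) < 1 := by
    rw [div_lt_one (by positivity)]; linarith [(Nat.cast_nonneg i : (0 : ℝ) ≤ i)]
  refine (cl_jensen hW hB (by linarith) u t h).trans ?_
  gcongr
  intro ω hω s hs
  linarith [hω s hs]

lemma op_univ {W B : ℝ≥0 → Ω → ℝ} (hW : IsBrownianReal W P) (hB : IsBrownianReal B P) (t : ℝ≥0) :
    P (Op W 1 t) = P (Op B 1 t) := by
  have h := fun {W B : ℝ≥0 → Ω → ℝ} (hW : IsBrownianReal W P) (hB : IsBrownianReal B P) =>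
    op_jensen (ι := Unit) (W := fun _ => W) (fun _ => hW) hB (fun _ => t) t (by simp)
  refine le_antisymm ?_ ?_
  · simpa using h hW hB
  · simpa using h hB hW

lemma op_decay {B : ℝ≥0 → Ω → ℝ} (hB : IsBrownianReal B P) (t : ℝ≥0) :
    P (Op B 1 t) ≤ ENNReal.ofReal (7 / 8) ^ ⌊t⌋₊ := by
  refine le_trans (measure_mono fun ω hω s hs => (hω s hs).le) ((cl_le hB.toIsPreBrownianReal 1
    (v := 1) (m := ⌊t⌋₊) ?_).trans (U_decay le_rfl _ _))
  rw [mul_one]; exact Nat.floor_le zero_le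

lemma op_low {B : ℝ≥0 → Ω → ℝ} (hB : IsBrownianReal B P) {r : ℝ} (hr : 0 < r) (hr1 : r < 1)
    {t : ℝ≥0} (ht : 0 < t) :
    1 ≤ P (Op B 1 t) + ENNReal.ofReal (2 * Real.exp (-(r ^ 2 / (2 * t)))) := by
  have ht' : (0 : ℝ) < t := ht
  have h1 : 1 ≤ P (Cl B r t) + ENNReal.ofReal (2 * Real.exp (-(r ^ 2 / (2 * t)))) := by
    refine ge_of_tendsto' ((cl_lim hB hr.le t).add_const _) fun n => ?_
    refine (U_low (2 ^ n)⁻¹ (θ := r / t) (by positivity) hr.le (⌊t * 2 ^ n⌋₊ - 1) 0).trans ?_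
    gcongr
    have h2 : (((⌊t * 2 ^ n⌋₊ - 1 : ℕ) : ℝ)) * ((2 ^ n : ℝ≥0)⁻¹ : ℝ≥0) ≤ t := by
      exact_mod_cast floor_mul_le' t n
    rw [mul_zero, Real.cosh_zero, one_mul, div_le_iff₀ (Real.cosh_pos _), Real.cosh_eq]
    have h3 : Real.exp (((⌊t * 2 ^ n⌋₊ - 1 : ℕ) : ℝ) * ((2 ^ n : ℝ≥0)⁻¹ : ℝ≥0) * (r / t) ^ 2 / 2) ≤
        Real.exp (-(r ^ 2 / (2 * t))) * Real.exp (r / t * r) := by
      rw [← Real.exp_add, Real.exp_le_exp]
      calc _ ≤ (t : ℝ) * (r / t) ^ 2 / 2 := by gcongr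
        _ = _ := by field_simp; ring
    nlinarith [mul_pos (Real.exp_pos (-(r ^ 2 / (2 * t)))) (Real.exp_pos (-(r / t * r)))]
  refine h1.trans ?_
  gcongr
  intro ω hω s hs
  linarith [hω s hs]

lemma op_up {B : ℝ≥0 → Ω → ℝ} (hB : IsBrownianReal B P) {η : ℝ} (hη : 0 < η)
    {t : ℝ≥0} (ht : 0 < t) :
    P (Op B 1 t) + ENNReal.ofReal ((√(2 * Real.pi * t))⁻¹ * Real.exp (-((1 + η) ^ 2 / (2 * t))) * η)
      ≤ 1 := by
  have ht' : (0 : ℝ) < t := ht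
  have h1 : P (Op B 1 t) ≤ gaussianReal 0 t (Icc 1 (1 + η))ᶜ := by
    rw [← (hB.hasLaw_eval t).map_eq,
      Measure.map_apply_of_aemeasurable (hB.aemeasurable t) measurableSet_Icc.compl]
    refine measure_mono fun ω hω h => ?_
    linarith [(abs_lt.1 (hω t le_rfl)).2, h.1]
  have h2 : ENNReal.ofReal ((√(2 * Real.pi * t))⁻¹ * Real.exp (-((1 + η) ^ 2 / (2 * t))) * η) ≤
      gaussianReal 0 t (Icc 1 (1 + η)) := by
    rw [gaussianReal_apply _ ht.ne', ENNReal.ofReal_mul (by positivity)]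
    have : ENNReal.ofReal η = volume (Icc 1 (1 + η)) := by simp
    rw [this, ← setLIntegral_const]
    refine setLIntegral_mono' measurableSet_Icc fun y hy => ENNReal.ofReal_le_ofReal ?_
    unfold gaussianPDFReal
    rw [neg_div, sub_zero]
    have h0 : 0 ≤ y := by linarith [hy.1]
    gcongr
    exact hy.2
  refine (add_le_add h1 h2).trans_eq ?_
  rw [add_comm, prob_add_prob_compl measurableSet_Icc]

end Pool.Agent.H.MP_1e851b_pr
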