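import Pool.Agent.H.MP_1e851b_pr.B

/-! Exit times of boxes. -/

namespace Pool.Agent.H.MP_1e851b_pr

open MeasureTheory ProbabilityTheory Set Filter Topology
open scoped ENNReal NNReal

variable {Ω : Type*} {mΩ : MeasurableSpace Ω} {P : Measure Ω} {d : ℕ}

/-- Exit time of the open box. -/
noncomputable def tau (B : Fin d → ℝ≥0 → Ω → ℝ) (a : Fin d → ℝ) (ω : Ω) : ℝ≥0∞ :=
  ⨅ t : ℝ≥0, ⨅ _ : ¬ ∀ k, |B k t ω| < a k, (t : ℝ≥0∞)

lemma lt_tau {B : Fin d → ℝ≥0 → Ω → ℝ} {a : Fin d → ℝ} {ω : Ω} (hc : ∀ k, Continuous (B k · ω))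
    (t : ℝ≥0) : (t : ℝ≥0∞) < tau B a ω ↔ ∀ k, ω ∈ Op (B k) (a k) t := by
  constructor
  · intro h k s hs
    by_contra hk
    have : tau B a ω ≤ s := iInf₂_le s fun h' => hk (h' k)
    exact absurd (h.trans_le this) (not_lt.2 (by exact_mod_cast hs))
  · intro h
    have ho : IsOpen {s : ℝ≥0 | ∀ k, |B k s ω| < a k} := by
      rw [ofPred_forall]
      exact isOpen_iInter_of_finite fun k => isOpen_lt (hc k).abs continuous_const
    obtain ⟨u, hu, hsub⟩ := exists_Ico_subset_of_mem_nhds (ho.mem_nhds fun k => h k t le_rfl)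
      ⟨t + 1, lt_add_one t⟩
    refine lt_of_lt_of_le (b := (u : ℝ≥0∞)) (by exact_mod_cast hu) (le_iInf₂ fun s hs => ?_)
    rw [ENNReal.coe_le_coe]
    by_contra hs'
    rcases le_total s t with h1 | h1
    · exact hs fun k => h k s h1
    · exact hs (hsub ⟨h1, not_le.1 hs'⟩)

/-- Countable description of the open event. -/
def OpM (a : ℝ) (t : ℝ≥0) : Set (ℝ≥0 → ℝ) :=
  ⋃ i : ℕ, ⋂ q : ℕ, {w | |w (min (TopologicalSpace.denseSeq ℝ≥0 q) t)| ≤ a - a / (i + 2)}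

lemma OpM_meas (a : ℝ) (t : ℝ≥0) : MeasurableSet (OpM a t) :=
  MeasurableSet.iUnion fun _ => MeasurableSet.iInter fun _ =>
    measurableSet_le (by fun_prop) measurable_const

lemma mem_OpM {w : ℝ≥0 → ℝ} (hw : Continuous w) {a : ℝ} (ha : 0 < a) (t : ℝ≥0) :
    w ∈ OpM a t ↔ ∀ s ≤ t, |w s| < a := by
  rw [open_iff hw ha, OpM, mem_iUnion]
  refine exists_congr fun i => ?_
  rw [mem_iInter]
  refine ⟨fun h s hs => ?_, fun h q => h _ (min_le_right _ _)⟩
  have := (TopologicalSpace.denseRange_denseSeq ℝ≥0).induction_on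
    (p := fun s => |w (min s t)| ≤ a - a / (i + 2)) s
    (isClosed_le (by fun_prop) continuous_const) h
  rwa [min_eq_left hs] at this

lemma op_ae {B : ℝ≥0 → Ω → ℝ} (hB : IsBrownianReal B P) {a : ℝ} (ha : 0 < a) (t : ℝ≥0) :
    Op B a t =ᵐ[P] ((fun ω s => B s ω) ⁻¹' OpM a t : Set Ω) := by
  filter_upwards [hB.cont] with ω hc
  exact propext (mem_OpM hc ha t).symm

lemma op_null {B : ℝ≥0 → Ω → ℝ} (hB : IsBrownianReal B P) {a : ℝ} (ha : 0 < a) (t : ℝ≥0) :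
    NullMeasurableSet (Op B a t) P := by
  refine NullMeasurableSet.congr ?_ (op_ae hB ha t).symm
  simp only [OpM, preimage_iUnion, preimage_iInter, preimage_ofPred_eq]
  exact NullMeasurableSet.iUnion fun _ => NullMeasurableSet.iInter fun _ =>
    nullMeasurableSet_le (measurable_norm.comp_aemeasurable (hB.aemeasurable _)) aemeasurable_const

lemma tau_ae {B : Fin d → ℝ≥0 → Ω → ℝ} (hB : ∀ k, IsBrownianReal (B k) P) (a : Fin d → ℝ)
    (t : ℝ≥0) : ({ω | (t : ℝ≥0∞) < tau B a ω} : Set Ω) =ᵐ[P] (⋂ k, Op (B k) (a k) t : Set Ω) := by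
  filter_upwards [ae_all_iff.2 fun k => (hB k).cont] with ω hc
  exact propext ((lt_tau hc t).trans mem_iInter.symm)

lemma tau_meas {B : Fin d → ℝ≥0 → Ω → ℝ} (hB : ∀ k, IsBrownianReal (B k) P) {a : Fin d → ℝ}
    (ha : ∀ k, 0 < a k) : AEMeasurable (tau B a) P := by
  refine NullMeasurable.aemeasurable ?_
  refine measurable_of_Ioi (δ := NullMeasurableSpace Ω P) fun x => ?_
  induction x with
  | top => simp
  | coe t =>
    exact NullMeasurableSet.congr (NullMeasurableSet.iInter fun k => op_null (hB k) (ha k) t)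
      (tau_ae hB a t).symm

lemma op_scale (B : ℝ≥0 → Ω → ℝ) {a : ℝ} (ha : 0 < a) (c : ℝ≥0) (hc : (c : ℝ) = a ^ 2) (t : ℝ≥0) :
    Op B a t = Op (fun s ω => (√c)⁻¹ * B (c * s) ω) 1 (t / c) := by
  have hc0 : 0 < c := by
    have : (0 : ℝ) < c := by rw [hc]; positivity
    exact this
  ext ω
  simp only [Op, mem_ofPred_eq, hc, Real.sqrt_sq ha.le, abs_mul, abs_inv, abs_of_pos ha]
  simp only [inv_mul_lt_iff₀ ha, mul_one, le_div_iff₀' hc0]
  refine ⟨fun h s hs => h _ hs, fun h s hs => ?_⟩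
  have := h (s / c) (by rwa [mul_div_cancel₀ _ hc0.ne'])
  rwa [mul_div_cancel₀ _ hc0.ne'] at this

lemma tau_prod {B : Fin d → ℝ≥0 → Ω → ℝ} (hB : ∀ k, IsBrownianReal (B k) P)
    (hI : iIndepFun (fun k ω (t : ℝ≥0) => B k t ω) P) {a : Fin d → ℝ} (ha : ∀ k, 0 < a k) (t : ℝ≥0) :
    P {ω | (t : ℝ≥0∞) < tau B a ω} = ∏ k, P (Op (B k) (a k) t) := by
  rw [measure_congr (tau_ae hB a t), measure_congr (EventuallyEq.countable_iInter fun k =>
    op_ae (hB k) (ha k) t), hI.meas_iInter fun k => ⟨_, OpM_meas (a k) t, rfl⟩]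
  exact Finset.prod_congr rfl fun k _ => (measure_congr (op_ae (hB k) (ha k) t)).symm

lemma moment {τ : Ω → ℝ≥0∞} (hτ : AEMeasurable τ P) (hf : P {ω | τ ω = ∞} = 0) {β : ℝ≥0}
    (hβ : 0 < β) {p : ℝ} (hp : 0 < p) :
    ENNReal.ofReal ((β : ℝ) ^ p) * ∫⁻ ω, τ ω ^ p ∂P = ENNReal.ofReal p *
      ∫⁻ t in Ioi (0 : ℝ), P {ω | ((t.toNNReal / β : ℝ≥0) : ℝ≥0∞) < τ ω} *
        ENNReal.ofReal (t ^ (p - 1)) := by
  have hf' : ∀ᵐ ω ∂P, τ ω ≠ ∞ := by rw [ae_iff]; simpa using hf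
  have h := lintegral_rpow_eq_lintegral_meas_lt_mul P (f := fun ω => β * (τ ω).toReal)
    (Eventually.of_forall fun ω => by positivity) (hτ.ennreal_toReal.const_mul _) hp
  rw [← lintegral_const_mul' _ _ ENNReal.ofReal_ne_top]
  refine Eq.trans (lintegral_congr_ae ?_) (h.trans ?_)
  · filter_upwards [hf'] with ω hω
    rw [Real.mul_rpow β.coe_nonneg ENNReal.toReal_nonneg, ENNReal.ofReal_mul (by positivity),
      ← ENNReal.ofReal_rpow_of_nonneg ENNReal.toReal_nonneg hp.le, ENNReal.ofReal_toReal hω]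
  · congr 1
    refine setLIntegral_congr_fun measurableSet_Ioi fun t ht => ?_
    beta_reduce
    congr 1
    refine measure_congr ?_
    filter_upwards [hf'] with ω hω
    refine propext ?_
    change t < β * (τ ω).toReal ↔ ((t.toNNReal / β : ℝ≥0) : ℝ≥0∞) < τ ω
    lift τ ω to ℝ≥0 using hω with x
    rw [ENNReal.coe_lt_coe, div_lt_iff₀' hβ, ENNReal.coe_toReal, ← NNReal.coe_lt_coe,
      Real.coe_toNNReal _ (le_of_lt ht), NNReal.coe_mul]

lemma pow_low {G e : ℝ≥0∞} (hG : G ≤ 1) (h : 1 ≤ G + e) : ∀ n : ℕ, 1 ≤ G ^ n + n * e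
  | 0 => by simp
  | n + 1 => by
    have ih := pow_low hG h n
    calc 1 ≤ G ^ n * 1 + n * e := by rwa [mul_one]
      _ ≤ G ^ n * (G + e) + n * e := by gcongr
      _ = G ^ (n + 1) + G ^ n * e + n * e := by ring
      _ ≤ G ^ (n + 1) + 1 * e + n * e := by gcongr; exact pow_le_one' hG n
      _ = _ := by push_cast; ring

lemma strict {W B : ℝ≥0 → Ω → ℝ} (hW : IsBrownianReal W P) (hB : IsBrownianReal B P) {γ : ℝ≥0}
    (hγ : 1 < γ) (n : ℕ) : ∃ t₀ : ℝ, 0 < t₀ ∧ ∀ t : ℝ≥0, 0 < t → (t : ℝ) < t₀ →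
      P (Op W 1 (γ * t)) < P (Op B 1 t) ^ n := by
  have := hB.isGaussianProcess.isProbabilityMeasure
  have hγ' : (1 : ℝ) < γ := hγ
  obtain ⟨η, ⟨h1, h2⟩, h0⟩ : ∃ η : ℝ, ((1 + η) ^ 2 < γ * (1 - η) ^ 2 ∧ η < 1) ∧ 0 < η := by
    have e1 : ∀ᶠ η : ℝ in 𝓝 0, (1 + η) ^ 2 < γ * (1 - η) ^ 2 :=
      ContinuousAt.eventually_lt (by fun_prop) (by fun_prop) (by simpa using hγ')
    have e2 : ∀ᶠ η : ℝ in 𝓝 0, η < 1 := eventually_lt_nhds one_pos
    exact (((e1.and e2).filter_mono nhdsWithin_le_nhds).and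
      (self_mem_nhdsWithin (s := Ioi (0 : ℝ)))).exists
  obtain ⟨D, hD⟩ : ∃ D : ℝ, D = (1 - η) ^ 2 / 2 - (1 + η) ^ 2 / (2 * γ) := ⟨_, rfl⟩
  have hD0 : 0 < D := by
    rw [hD, sub_pos, div_lt_div_iff₀ (by positivity) (by positivity)]; nlinarith
  obtain ⟨Kc, hK⟩ : ∃ K : ℝ, K = √(2 * Real.pi * γ) * (2 * n + 1) / η := ⟨_, rfl⟩
  have hK0 : 0 < Kc := by rw [hK]; have := Real.pi_pos; positivity
  refine ⟨min 1 (D / Kc), by positivity, fun t ht ht' => ?_⟩
  have ht0 : (0 : ℝ) < t := ht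
  have ht1 : (t : ℝ) < 1 := ht'.trans_le (min_le_left _ _)
  have ht2 : Kc < D / t := by
    have := ht'.trans_le (min_le_right _ _)
    rw [lt_div_iff₀ hK0] at this
    rw [lt_div_iff₀ ht0]; linarith
  have u1 := op_up hW h0 (t := γ * t) (by positivity)
  have u2 := pow_low prob_le_one (op_low hB (r := 1 - η) (by linarith) (by linarith) ht) n
  have u3 : (n : ℝ≥0∞) * ENNReal.ofReal (2 * Real.exp (-((1 - η) ^ 2 / (2 * t)))) <
      ENNReal.ofReal ((√(2 * Real.pi * (γ * t : ℝ≥0)))⁻¹ *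
        Real.exp (-((1 + η) ^ 2 / (2 * (γ * t : ℝ≥0)))) * η) := by
    have hpi := Real.pi_pos
    rw [← ENNReal.ofReal_natCast, ← ENNReal.ofReal_mul (by positivity),
      ENNReal.ofReal_lt_ofReal_iff (by positivity), NNReal.coe_mul]
    have e1 : Real.exp (-((1 + η) ^ 2 / (2 * (γ * t)))) = Real.exp (D / t) *
        Real.exp (-((1 - η) ^ 2 / (2 * t))) := by
      rw [← Real.exp_add, hD]; congr 1; field_simp; ring
    have e2 : Kc < Real.exp (D / t) := by linarith [Real.add_one_le_exp (D / t)]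
    have e3 : (√(2 * Real.pi * γ))⁻¹ ≤ (√(2 * Real.pi * (γ * t)))⁻¹ := by
      gcongr
      nlinarith
    have e4 : (√(2 * Real.pi * γ))⁻¹ * Kc * η = 2 * n + 1 := by
      rw [hK]; field_simp
    have e5 : (√(2 * Real.pi * γ))⁻¹ * Kc * η ≤
        (√(2 * Real.pi * (γ * t)))⁻¹ * Real.exp (D / t) * η := by gcongr
    rw [e1]
    nlinarith [Real.exp_pos (-((1 - η) ^ 2 / (2 * t)))]
  by_contra hn
  have u4 := (u1.trans u2).trans (add_le_add (not_lt.1 hn) le_rfl)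
  exact absurd ((ENNReal.add_le_add_iff_left (measure_ne_top _ _)).1 u4) (not_le.2 u3)

lemma finite_int {B : ℝ≥0 → Ω → ℝ} (hB : IsBrownianReal B P) {p : ℝ} (hp : 0 < p) {n : ℕ}
    (hn : n ≠ 0) : ∫⁻ t in Ioi (0 : ℝ), P (Op B 1 t.toNNReal) ^ n * ENNReal.ofReal (t ^ (p - 1))
      ≠ ∞ := by
  have := hB.isGaussianProcess.isProbabilityMeasure
  have hl : 0 < Real.log (8 / 7) := Real.log_pos (by norm_num)
  have hi := (integrableOn_rpow_mul_exp_neg_mul_rpow (s := p - 1) (p := 1) (by linarith) one_pos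
    hl).const_mul (8 / 7)
  refine ne_top_of_le_ne_top hi.lintegral_lt_top.ne (setLIntegral_mono' measurableSet_Ioi
    fun t ht => ?_)
  have ht : (0 : ℝ) < t := ht
  have h1 : P (Op B 1 t.toNNReal) ^ n ≤ ENNReal.ofReal (8 / 7 * Real.exp (-Real.log (8 / 7) * t)) := by
    refine (pow_le_of_le_one zero_le prob_le_one hn).trans ((op_decay hB _).trans ?_)
    rw [← ENNReal.ofReal_pow (by norm_num)]
    refine ENNReal.ofReal_le_ofReal ?_
    have h2 : t.toNNReal < (⌊t.toNNReal⌋₊ : ℝ≥0) + 1 := Nat.lt_floor_add_one _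
    have h3 : t < (⌊t.toNNReal⌋₊ : ℝ) + 1 := by
      have : (t.toNNReal : ℝ) < (⌊t.toNNReal⌋₊ : ℝ) + 1 := by exact_mod_cast h2
      rwa [Real.coe_toNNReal _ ht.le] at this
    generalize ⌊t.toNNReal⌋₊ = m at h3
    have h4 : (7 / 8 : ℝ) = Real.exp (-Real.log (8 / 7)) := by
      rw [Real.exp_neg, Real.exp_log (by norm_num)]; norm_num
    have h5 : (8 / 7 : ℝ) * Real.exp (-Real.log (8 / 7) * t) =
        Real.exp (Real.log (8 / 7) + -Real.log (8 / 7) * t) := by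
      rw [Real.exp_add, Real.exp_log (by norm_num)]
    rw [h5, h4, ← Real.exp_nat_mul, Real.exp_le_exp]
    nlinarith
  refine (mul_le_mul_left h1 _).trans_eq ?_
  rw [← ENNReal.ofReal_mul (by positivity), Real.rpow_one]
  congr 1
  ring

theorem main {B : Fin d → ℝ≥0 → Ω → ℝ} (hd : 0 < d) (hB : ∀ k, IsBrownianReal (B k) P)
    (hI : iIndepFun (fun k ω (t : ℝ≥0) => B k t ω) P) {a : Fin d → ℝ} (ha : ∀ k, 0 < a k)
    {p : ℝ} (hp : 0 < p) {β : ℝ} (hβ : d * β = ∑ k, (a k ^ 2)⁻¹) :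
    ∫⁻ ω, tau B (fun _ => 1) ω ^ p ∂P ≠ ∞ ∧
    ENNReal.ofReal (β ^ p) * ∫⁻ ω, tau B a ω ^ p ∂P ≤ ∫⁻ ω, tau B (fun _ => 1) ω ^ p ∂P ∧
    (ENNReal.ofReal (β ^ p) * ∫⁻ ω, tau B a ω ^ p ∂P = ∫⁻ ω, tau B (fun _ => 1) ω ^ p ∂P →
      ∀ k l, a k = a l) := by
  set B0 := B ⟨0, hd⟩
  have hB0 : IsBrownianReal B0 P := hB _
  have := hB0.isGaussianProcess.isProbabilityMeasure
  have : Nonempty (Fin d) := ⟨⟨0, hd⟩⟩
  have hd' : (0 : ℝ) < d := by exact_mod_cast hd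
  have hβ0 : 0 < β := by
    have : 0 < ∑ k, (a k ^ 2)⁻¹ := Finset.sum_pos (fun k _ => by have := ha k; positivity)
      Finset.univ_nonempty
    rw [← hβ] at this
    exact (mul_pos_iff_of_pos_left hd').1 this
  lift β to ℝ≥0 using hβ0.le
  have hβ1 : 0 < β := hβ0
  set c : Fin d → ℝ≥0 := fun k => ⟨a k ^ 2, sq_nonneg _⟩ with hc
  have hcv : ∀ k, (c k : ℝ) = a k ^ 2 := fun k => rfl
  have hc0 : ∀ k, c k ≠ 0 := fun k h => by
    have := hcv k
    rw [h] at this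
    exact (pow_pos (ha k) 2).ne this
  have hW := fun k => (hB k).smul (hc0 k)
  have f1 : ∀ t : ℝ≥0, P {ω | (t : ℝ≥0∞) < tau B (fun _ => 1) ω} = P (Op B0 1 t) ^ d := by
    intro t
    rw [tau_prod hB hI fun _ => one_pos, Finset.prod_congr rfl fun k _ => op_univ (hB k) hB0 t]
    simp
  have f2 : ∀ t : ℝ≥0, P {ω | ((t / β : ℝ≥0) : ℝ≥0∞) < tau B a ω} =
      ∏ k, P (Op (fun s ω => (√(c k))⁻¹ * B k (c k * s) ω) 1 (t / β / c k)) := by
    intro t
    rw [tau_prod hB hI ha]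
    exact Finset.prod_congr rfl fun k _ => by rw [op_scale _ (ha k) (c k) (hcv k)]
  have f3 : ∀ t : ℝ≥0, P {ω | ((t / β : ℝ≥0) : ℝ≥0∞) < tau B a ω} ≤ P (Op B0 1 t) ^ d := by
    intro t
    rw [f2]
    have := op_jensen hW hB0 (fun k => t / β / c k) t (le_of_eq (by
      apply NNReal.coe_injective
      push_cast
      simp only [hcv, div_eq_mul_inv, ← Finset.mul_sum, ← hβ, Fintype.card_fin]
      field_simp))
    simpa using this
  have g : ∀ τ : Ω → ℝ≥0∞, (∀ n : ℕ, ∃ s : ℝ≥0, P {ω | (s : ℝ≥0∞) < τ ω} ≤ P (Op B0 1 n) ^ d) →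
      P {ω | τ ω = ∞} = 0 := by
    intro τ h
    refine le_antisymm (ge_of_tendsto' (ENNReal.tendsto_pow_atTop_nhds_zero_of_lt_one
      (r := ENNReal.ofReal (7 / 8)) (ENNReal.ofReal_lt_one.2 (by norm_num))) fun n => ?_) zero_le
    obtain ⟨s, hs⟩ := h n
    have h2 := op_decay hB0 n
    rw [Nat.floor_natCast] at h2
    refine le_trans (measure_mono fun ω (hω : τ ω = ∞) => ?_)
      (hs.trans ((pow_le_of_le_one zero_le prob_le_one hd.ne').trans h2))
    change _ < τ ω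
    rw [hω]; exact ENNReal.coe_lt_top
  have m1 := moment (tau_meas hB fun _ => one_pos) (g _ fun n => ⟨n, (f1 n).le⟩) one_pos hp
  have m2 := moment (tau_meas hB ha) (g _ fun n => ⟨_, f3 n⟩) hβ1 hp
  simp only [NNReal.coe_one, Real.one_rpow, ENNReal.ofReal_one, one_mul, div_one, f1] at m1
  have hfin := finite_int hB0 hp hd.ne'
  have hle : ∀ t : ℝ, P {ω | ((t.toNNReal / β : ℝ≥0) : ℝ≥0∞) < tau B a ω} *
      ENNReal.ofReal (t ^ (p - 1)) ≤ P (Op B0 1 t.toNNReal) ^ d * ENNReal.ofReal (t ^ (p - 1)) :=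
    fun t => mul_le_mul_left (f3 _) _
  rw [m1, m2]
  refine ⟨ENNReal.mul_ne_top ENNReal.ofReal_ne_top hfin, mul_le_mul_right (lintegral_mono hle) _,
    fun h => ?_⟩
  have hall : ∀ k, (a k ^ 2)⁻¹ ≤ β := by
    intro k
    by_contra hk
    have hγ : 1 < (β * c k)⁻¹ := by
      rw [← NNReal.coe_lt_coe]
      push_cast
      rw [hcv, mul_inv, ← div_eq_inv_mul, one_lt_div hβ0]
      exact not_le.1 hk
    obtain ⟨t₀, ht₀, hs⟩ := strict (hW k) hB0 hγ d
    have hm : Measurable fun t : ℝ => P (Op B0 1 t.toNNReal) :=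
      Antitone.measurable fun s t hst => measure_mono fun ω hω u hu =>
        hω u (hu.trans (Real.toNNReal_le_toNNReal hst))
    refine absurd ((ENNReal.mul_right_inj (by simpa using hp) ENNReal.ofReal_ne_top).1 h) (ne_of_lt ?_)
    refine lintegral_strict_mono_of_ae_le_of_ae_lt_on ((hm.pow_const d).fun_mul
      (measurable_id.pow_const (p - 1)).ennreal_ofReal).aemeasurable
      (ne_top_of_le_ne_top hfin (lintegral_mono hle)) (Eventually.of_forall hle)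
      (s := Ioo 0 t₀) ?_ (Eventually.of_forall fun t ht => ?_)
    · rw [Measure.restrict_apply measurableSet_Ioo, inter_eq_left.2 Ioo_subset_Ioi_self]
      simpa using ht₀
    · have h1 := hs t.toNNReal (Real.toNNReal_pos.2 ht.1) (by
        rw [Real.coe_toNNReal _ ht.1.le]; exact ht.2)
      refine (ENNReal.mul_lt_mul_iff_left (by simpa using Real.rpow_pos_of_pos ht.1 _)
        ENNReal.ofReal_ne_top).2 (lt_of_le_of_lt ?_ h1)
      rw [f2, show (β * c k)⁻¹ * t.toNNReal = t.toNNReal / β / c k by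
        rw [div_div, div_eq_inv_mul]]
      rw [← Finset.mul_prod_erase _ _ (Finset.mem_univ k)]
      exact mul_le_of_le_one_right' (Finset.prod_le_one' fun _ _ => prob_le_one)
  have heq : ∀ k, (a k ^ 2)⁻¹ = β := by
    have := (Finset.sum_eq_sum_iff_of_le (s := Finset.univ) fun k _ => hall k).1 (by
      rw [← hβ]; simp)
    exact fun k => this k (Finset.mem_univ k)
  intro k l
  have := inv_injective ((heq k).trans (heq l).symm)
  exact (pow_left_inj₀ (ha k).le (ha l).le two_ne_zero).1 this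

end Pool.Agent.H.MP_1e851b_pr
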